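import Mathlib
import Pool.Agent.Lib.helper16.PpE

namespace Pool.Agent.Results.MP_b61c36_nt.Exists
open Finset Filter Topology MeasureTheory

/-- distance from `x` to the nearest integer -/
noncomputable def nd (x : ℝ) : ℝ := |x - round x|

/-- Poissonian pair correlations of the sequence `x 1, x 2, …` -/
def PPC (x : ℕ → ℝ) : Prop :=
  ∀ s : ℝ, 0 < s → Tendsto (fun N : ℕ => (((Icc 1 N ×ˢ Icc 1 N).filter
    fun p : ℕ × ℕ => p.1 ≠ p.2 ∧ nd (x p.1 - x p.2) < s / N).card : ℝ) / N) atTop (𝓝 (2 * s))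

open Pool.Agent.Lib.helper16.PpA in
lemma ppc_iff (a : ℕ → ℕ) (b : ℕ → ℤ) (hb : ∀ n, b (n + 1) = a n) (α : ℝ) :
    PPC (fun n => Int.fract (b n * α)) ↔ ∀ s, 0 < s → Lim (fun n => ((a n * α : ℝ) : Ci)) s := by
  have key : ∀ (N : ℕ) (t : ℝ), ((Icc 1 N ×ˢ Icc 1 N).filter fun p : ℕ × ℕ => p.1 ≠ p.2 ∧
      nd (Int.fract (b p.1 * α) - Int.fract (b p.2 * α)) < t).card =
      pc (fun n => ((a n * α : ℝ) : Ci)) (range N) t := by
    intro N t
    have e : ∀ k l, nd (Int.fract (b (k + 1) * α) - Int.fract (b (l + 1) * α)) =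
        dist ((a k * α : ℝ) : Ci) ((a l * α : ℝ) : Ci) := by
      intro k l
      rw [nd, ← UnitAddCircle.norm_eq, AddCircle.coe_sub, AddCircle.coe_fract, AddCircle.coe_fract,
        hb, hb, dist_eq_norm]
      simp
    symm
    refine card_bij (fun p _ => (p.1 + 1, p.2 + 1)) ?_ ?_ ?_
    · rintro ⟨k, l⟩ hp
      simp only [mem_filter, mem_offDiag, mem_range, mem_product, mem_Icc] at hp ⊢
      exact ⟨by omega, by omega, by rw [e]; exact hp.2⟩
    · rintro ⟨k, l⟩ _ ⟨k', l'⟩ _ h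
      simpa using h
    · rintro ⟨k, l⟩ hp
      simp only [mem_filter, mem_product, mem_Icc] at hp
      obtain ⟨k, rfl⟩ := Nat.exists_eq_add_of_le' hp.1.1.1
      obtain ⟨l, rfl⟩ := Nat.exists_eq_add_of_le' hp.1.2.1
      refine ⟨(k, l), ?_, rfl⟩
      simp only [mem_filter, mem_offDiag, mem_range]
      exact ⟨by omega, by rw [← e]; exact hp.2.2⟩
  simp only [PPC, Lim, key]

theorem result :
    (∀ γ : ℝ, Irrational γ → ∃ a : ℕ → ℤ, StrictMono a ∧ (∀ n, 1 ≤ n → 0 < a n) ∧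
      (∀ᵐ α : ℝ, ¬ PPC fun n => Int.fract (a n * α)) ∧ PPC fun n => Int.fract (a n * γ)) ∧
    ∃ a : ℕ → ℤ, StrictMono a ∧ (∀ n, 1 ≤ n → 0 < a n) ∧
      (∀ᵐ α : ℝ, ¬ PPC fun n => Int.fract (a n * α)) ∧
      ∃ α : ℝ, PPC fun n => Int.fract (a n * α) := by
  have h : ∀ γ : ℝ, Irrational γ → ∃ a : ℕ → ℤ, StrictMono a ∧ (∀ n, 1 ≤ n → 0 < a n) ∧
      (∀ᵐ α : ℝ, ¬ PPC fun n => Int.fract (a n * α)) ∧ PPC fun n => Int.fract (a n * γ) := by
    intro γ hγ
    obtain ⟨a, h1, h2, h3, h4⟩ := Pool.Agent.Lib.helper16.PpE.main hγ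
    refine ⟨fun n => Nat.casesOn n 0 fun m => (a m : ℤ), strictMono_nat_of_lt_succ fun n => ?_,
      fun n hn => ?_, ?_, (ppc_iff a _ (fun _ => rfl) γ).2 h4⟩
    · cases n with
      | zero => exact Int.natCast_pos.2 (h2 0)
      | succ n => exact Int.ofNat_lt.2 (h1 n.lt_succ_self)
    · cases n with
      | zero => omega
      | succ n => exact Int.natCast_pos.2 (h2 n)
    · filter_upwards [h3] with α hα h
      exact hα ((ppc_iff a _ (fun _ => rfl) α).1 h 1 one_pos)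
  obtain ⟨a, h1, h2, h3, h4⟩ := h _ irrational_sqrt_two
  exact ⟨h, a, h1, h2, h3, _, h4⟩

end Pool.Agent.Results.MP_b61c36_nt.Exists
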